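import Mathlib
import Pool.Agent.W433.OddLoopB

/-!
# The local loop lemma for odd cycles

Let `R` be a symmetric relation on a (possibly infinite) set `A` with an odd cycle `(a_1, ..., a_l)`,
and let `f` be an idempotent operation compatible with `R` such that `a_1^{+R}` absorbs `{a_1}`
with respect to `f`. Then `R` has a loop.

Idea of the proof.
* If `φ` labels the histories (infinite sequences of coordinates of `f`) by elements of `A`, depends
  only on finitely many recent letters and satisfies `φ h ~ f (j ↦ φ (j h))` for all `h`, then
  iterated composition of `f` along `φ` stabilises to an element `t`, and `t ~ t`.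
* If the component of `a_1` contains a triangle such a labelling is produced by a finite automaton
  which forgets its initial state: it walks to `a_1` and waits there while the newest letters are all
  equal, walks back to the triangle otherwise, and on the triangle it performs a 3-colouring of the
  sequence of letters guided by local maxima.
* In general a closed walk of odd length `l` in the component of `a_1` gives a triangle for the
  relation `S = R ∘ ... ∘ R` (`l - 2` factors), for which `a_1^{+S}` still absorbs `a_1`. A loop of
  `S` is a closed walk of length `l - 2` of `R`, and one concludes by induction.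
-/

set_option autoImplicit false

namespace Pool.Agent.Results.MP_511665_al.OddCycleLoop

open Pool.Agent.W433.OddLoop

theorem result (A : Type*) (R : A → A → Prop) (hsymm : ∀ x y, R x y → R y x)
    -- an odd cycle `c 0, ..., c (l - 1)` of `R` with `l ≥ 3` distinct elements
    (l : ℕ) (hl : 3 ≤ l) (hodd : Odd l) (c : ℕ → A)
    (_hinj : ∀ i j, i < l → j < l → c i = c j → i = j)
    (hcyc : ∀ i, i + 1 < l → R (c i) (c (i + 1))) (hclose : R (c (l - 1)) (c 0))
    -- an idempotent operation of arity `n ≥ 1` compatible with `R`
    (n : ℕ) (hn : 1 ≤ n) (f : (Fin n → A) → A) (hidem : ∀ x, f (fun _ => x) = x)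
    (hcompat : ∀ x y : Fin n → A, (∀ i, R (x i) (y i)) → R (f x) (f y))
    -- the set of neighbours of `c 0` absorbs `{c 0}` with respect to `f`
    (habs : ∀ (j : Fin n) (b : Fin n → A), (∀ i, R (c 0) (b i)) →
      R (c 0) (f (Function.update b j (c 0)))) :
    ∃ a, R a a := by
  obtain ⟨m, hm⟩ := hodd
  have h1 : Walk R (l - 1 - 0) (c 0) (c (l - 1)) :=
    Walk.of_fun (k := l - 1) (fun s hs => hcyc s (by omega)) 0 (l - 1) (by omega) le_rfl
  have h2 : Walk R (2 * m + 1) (c 0) (c 0) := by
    have := h1.trans (Walk.one.2 hclose)
    rwa [show l - 1 - 0 + 1 = 2 * m + 1 by omega] at this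
  exact loop_of_odd hn hsymm hidem hcompat (hcyc 0 (by omega)) habs m (c 0) 0 rfl h2

end Pool.Agent.Results.MP_511665_al.OddCycleLoop
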